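import Pool.Agent.Y138.GS.Main

/-!
# The semisimplicity conjecture follows from one closed fibre

Let `k₀` be a finitely generated field of characteristic zero, `T` a normal, geometrically connected
scheme of finite type over `k₀` with function field `k`, and `X → T` smooth and projective. `Γ` is the
fundamental group of `T` (a quotient of the absolute Galois group of `k`), `N` its geometric part,
and `D t`, for a closed point `t` of `T`, the decomposition group of `t` (the image of the absolute
Galois group of the residue field of `t`); `N D(t)` has finite index in `Γ`, and `hHilbert` is
Hilbert's irreducibility theorem: every connected Galois covering of `T` has a connected fibre over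
some closed point `t`, that is, `D(t) U = Γ` for the corresponding open subgroup `U`.

For finitely many pairs `r` of a degree and a prime `ℓ r`, `ρ r` is the representation of `Γ` on the
cohomology group in this degree, with coefficients in the `ℓ r`-adic numbers, of the geometric
generic fibre, whose restriction to `D t` is the cohomology of the fibre over `t`. By a theorem of
Deligne `ρ r` is semisimple on `N`.

Theorem: equivalent are
1. for every `r` there is a closed point `t` such that the cohomology of the fibre over `t` is a
   semisimple representation of the Galois group of the residue field of `t`;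
2. the cohomology of the generic fibre is a semisimple representation of the Galois group of `k`;
3. there is a connected Galois covering `T' → T` such that for all closed points `t` over which it
   has a connected fibre (all points outside a thin set) the cohomology of the fibre over `t` is
   semisimple, and has the same stable subspaces as the cohomology of the generic fibre.
-/

namespace Pool.Agent.Results.MP_b4801b_ag.OneClosedFibre

open Pool.Agent.Y138.GS

theorem result {Γ P : Type*} [Group Γ] [TopologicalSpace Γ] [IsTopologicalGroup Γ]
    [CompactSpace Γ] [TotallyDisconnectedSpace Γ]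
    -- the geometric fundamental group and the decomposition groups of the closed points
    (N : Subgroup Γ) (hN : N.Normal) (D : P → Subgroup Γ) (hD : ∀ t, (N ⊔ D t).FiniteIndex)
    (hHilbert : ∀ U : Subgroup Γ, U.Normal → IsOpen (U : Set Γ) → ∃ t, D t ⊔ U = ⊤)
    -- the representations on the cohomology
    {R : Type*} [Finite R] (ℓ : R → ℕ) [∀ r, Fact (ℓ r).Prime] (b : R → ℕ)
    (ρ : ∀ r, Γ →* Matrix (Fin (b r)) (Fin (b r)) ℚ_[ℓ r]) (hρ : ∀ r, Continuous (ρ r))
    (hgeom : ∀ r, IsSemisimpleRep (ρ r) N) :
    List.TFAE [
      ∀ r, ∃ t, IsSemisimpleRep (ρ r) (D t),
      ∀ r, IsSemisimpleRep (ρ r) ⊤,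
      ∃ U : Subgroup Γ, U.Normal ∧ IsOpen (U : Set Γ) ∧ ∀ t, D t ⊔ U = ⊤ → ∀ r,
        IsSemisimpleRep (ρ r) (D t) ∧ ∀ W, IsStable (ρ r) (D t) W ↔ IsStable (ρ r) ⊤ W] :=
  specialization N hN D hD hHilbert ℓ b ρ hρ hgeom

end Pool.Agent.Results.MP_b4801b_ag.OneClosedFibre
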