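import Pool.Agent.Y142.MainA

/-!
# Semisimplicity of `ℓ`-adic cohomology from one Frobenius polynomial

Let `X` be a smooth projective variety over a finitely generated field `k` of characteristic zero,
`i > 0`, and `V` the `i`-th `ℓ`-adic cohomology of `X` over an algebraic closure of `k`.  Spread `X`
out to a smooth projective family over an integral scheme `T` of finite type over the rational
numbers with function field `k`, and let `t` be a closed point of `T` with residue field `K`, a number
field (`t = T` if `k = K` is a number field).  Then `V` is a representation of the fundamental group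
`Γ` of `T`, a quotient of the absolute Galois group of `k`, and `t` defines a homomorphism `θ` from the
absolute Galois group of `K` to `Γ`.  By the hard Lefschetz theorem and Poincaré duality `Γ` acts by
similitudes of a nondegenerate, symmetric or alternating bilinear form on `V`, and by the Weil
conjectures the representation of the Galois group of `K` is pure of weight `i`: this is the structure
`PurePolarized` below.

For a family of polynomials `P i` with integral coefficients an isotropic relation is a choice of `d`
roots of each of the polynomials `P i`, such that these roots together with their duals `s / z` are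
(with multiplicities) among the roots of `P i`, and the product of all the chosen roots is the product
of a square root of a power of `s` and a root of unity (`IsotropicRelation`).

**Theorem.** Suppose that for every `d > 0` with `2 d ≤ dim V` and with `w d [K : ℚ]` even there is a
rational prime `p` which splits completely in `K` into primes of good reduction, such that the
Frobenius polynomials at the primes of `K` above `p` have no isotropic relation of size `d`, or none
that is rational over the field of `ℓ`-adic numbers.  Then `V` is semisimple; the orthogonal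
complement of every stable subspace is a stable complement.

So in general one Frobenius polynomial is enough to see that the cohomology is semisimple for all
prime numbers `ℓ` different from `p`.  There is no condition on the Hodge numbers or on `ℓ`.  The
proof uses the theorem of Kronecker and Weber and the `ℓ`-adic six exponentials theorem to see that
the determinant of a stable isotropic subspace is, up to characters of finite order, the square root
of a power of the similitude character.
-/

set_option autoImplicit false

namespace Pool.Agent.Results.MP_b4801b_ag.OneFrobenius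

open NumberField IsDedekindDomain Polynomial

/-- the absolute Galois group, with the profinite (Krull) topology -/
abbrev G (K : Type) [Field K] : Type := Gal(AlgebraicClosure K/K)

/-- `σ` is a Frobenius element at the prime `v` of `K`: there is a maximal ideal `Q` above `v` of the
ring of all algebraic integers with `σ x ≡ x ^ N(v)` modulo `Q` for all `x` -/
def IsFrobenius {K : Type} [Field K] [NumberField K] (v : HeightOneSpectrum (𝓞 K)) (σ : G K) :
    Prop :=
  ∃ Q : Ideal (𝓞 (AlgebraicClosure K)), Q.IsMaximal ∧
    Q.comap (algebraMap (𝓞 K) (𝓞 (AlgebraicClosure K))) = v.asIdeal ∧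
    ∀ x : 𝓞 (AlgebraicClosure K), σ • x - x ^ Ideal.absNorm v.asIdeal ∈ Q

/-- A representation `ρ` of a group `Γ` on a vector space `V` over the `ℓ`-adic numbers, together
with a homomorphism `θ` from the absolute Galois group of the number field `K` to `Γ`, which is
* continuous on the Galois group of `K`,
* polarized: `Γ` acts by similitudes, with factor `χ`, of a nondegenerate symmetric or alternating
  form `B`,
* pure of weight `w`: outside the finite set `S` of primes of `K` the inverse of a Frobenius element
  has a characteristic polynomial `P v` with integral coefficients, whose complex roots have absolute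
  value `N(v) ^ (w / 2)`, and similitude factor `N(v) ^ w`. -/
structure PurePolarized (K : Type) [Field K] [NumberField K] (ℓ w : ℕ) [Fact ℓ.Prime]
    (Γ V : Type) [Group Γ] [AddCommGroup V] [Module ℚ_[ℓ] V] [FiniteDimensional ℚ_[ℓ] V] where
  θ : G K →* Γ
  ρ : Γ →* (V →ₗ[ℚ_[ℓ]] V)
  continuous : ∀ (φ : V →ₗ[ℚ_[ℓ]] ℚ_[ℓ]) (x : V), Continuous fun g => φ (ρ (θ g) x)
  B : LinearMap.BilinForm ℚ_[ℓ] V
  nondegenerate : B.Nondegenerate
  symm_or_alt : B.IsSymm ∨ B.IsAlt
  χ : Γ → ℚ_[ℓ]
  similitude : ∀ (g : Γ) (x y : V), B (ρ g x) (ρ g y) = χ g * B x y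
  S : Set (HeightOneSpectrum (𝓞 K))
  finite : S.Finite
  P : HeightOneSpectrum (𝓞 K) → ℤ[X]
  monic : ∀ v ∉ S, (P v).Monic
  weight : ∀ v ∉ S, ∀ z : ℂ, aeval z (P v) = 0 → ‖z‖ ^ 2 = (Ideal.absNorm v.asIdeal : ℝ) ^ w
  charpoly : ∀ v ∉ S, ∀ σ : G K, IsFrobenius v σ →
    (ρ (θ σ⁻¹)).charpoly = (P v).map (algebraMap ℤ ℚ_[ℓ])
  factor : ∀ v ∉ S, ∀ σ : G K, IsFrobenius v σ →
    χ (θ σ⁻¹) = (Ideal.absNorm v.asIdeal : ℚ_[ℓ]) ^ w

/-- An isotropic relation of size `d`, rational over `F`, between the roots in `Ω` of the polynomials
`P i`: monic polynomials `Q i` of degree `d` over `F` such that the roots `z` of `Q i` together with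
the numbers `s / z` are (with multiplicities) among the roots of `P i`, and such that the product of
all the roots of all the `Q i` is a square root of `s ^ (d * m)` times a root of unity. -/
def IsotropicRelation (F Ω : Type) [Field F] [Field Ω] [Algebra F Ω] {m : ℕ} (P : Fin m → ℤ[X])
    (s d : ℕ) : Prop :=
  ∃ (Q : Fin m → F[X]) (n : ℕ), 0 < n ∧
    (∀ i, (Q i).Monic ∧ (Q i).natDegree = d ∧
      (Q i).aroots Ω + ((Q i).aroots Ω).map (fun z => (s : Ω) / z) ≤ (P i).aroots Ω) ∧
    (∏ i, ((Q i).aroots Ω).prod) ^ (2 * n) = (s : Ω) ^ (d * m * n)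

/-- The primes `v i` of `K` show that the rational prime `p` splits completely in `K`. -/
def SplitsInto {K : Type} [Field K] [NumberField K] (p : ℕ)
    (v : Fin (Module.finrank ℚ K) → HeightOneSpectrum (𝓞 K)) : Prop :=
  p.Prime ∧ Function.Injective v ∧ ∀ i, (p : 𝓞 K) ∈ (v i).asIdeal

theorem result (K : Type) [Field K] [NumberField K] (ℓ w : ℕ) [Fact ℓ.Prime] (hw : 0 < w)
    (Γ V : Type) [Group Γ] [AddCommGroup V] [Module ℚ_[ℓ] V] [FiniteDimensional ℚ_[ℓ] V]
    (A : PurePolarized K ℓ w Γ V)
    (hno : ∀ d : ℕ, 0 < d → 2 * d ≤ Module.finrank ℚ_[ℓ] V → Even (w * d * Module.finrank ℚ K) →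
      ∃ (p : ℕ) (v : Fin (Module.finrank ℚ K) → HeightOneSpectrum (𝓞 K)),
        SplitsInto p v ∧ (∀ i, v i ∉ A.S) ∧
        ¬ (IsotropicRelation ℂ ℂ (fun i => A.P (v i)) (p ^ w) d ∧
          IsotropicRelation ℚ_[ℓ] (AlgebraicClosure ℚ_[ℓ]) (fun i => A.P (v i)) (p ^ w) d))
    (U : Submodule ℚ_[ℓ] V) (hU : ∀ g : Γ, ∀ x ∈ U, A.ρ g x ∈ U) :
    IsCompl U (A.B.orthogonal U) ∧ ∀ g : Γ, ∀ x ∈ A.B.orthogonal U, A.ρ g x ∈ A.B.orthogonal U :=
  Pool.Agent.Y142.semisimple_A A.θ A.ρ A.continuous A.B A.nondegenerate
    (A.symm_or_alt.elim LinearMap.BilinForm.IsSymm.isRefl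
      LinearMap.BilinForm.IsAlt.isRefl) A.χ A.similitude hw A.finite
    A.P (fun v hv => ⟨A.monic v hv, A.weight v hv, fun σ hσ => ⟨A.charpoly v hv σ hσ,
      A.factor v hv σ hσ⟩⟩)
    (fun d h1 h2 h3 => by
      obtain ⟨p, v, hs, hv, hno⟩ := hno d h1 h2 h3
      exact ⟨p, v, hs.1, hs.2.1, fun i => ⟨hs.2.2 i, hv i⟩, hno⟩) U hU

end Pool.Agent.Results.MP_b4801b_ag.OneFrobenius
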