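import Pool.Agent.Y126.BP.MainB

/-!
# Semisimplicity of `ℓ`-adic cohomology from one prime of bad reduction

Let `X` be a smooth projective variety over a number field `K` (or over a finitely generated field of
characteristic zero), `w > 0`, and `V` the `w`-th `ℓ`-adic cohomology of `X` over an algebraic closure.
Spread `X` out to a smooth projective family over a scheme `T` of finite type over the rational
numbers, `Γ` is the fundamental group of `T`, and a closed point of `T` with residue field `K` defines a
homomorphism `θ` from the absolute Galois group of `K` to `Γ` (for a variety over the number field `K`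
itself `Γ` is the absolute Galois group of `K` and `θ` the identity).  By the hard Lefschetz theorem
and Poincaré duality `Γ` acts by similitudes of a nondegenerate, symmetric or alternating bilinear form
on `V`, and by the Weil conjectures the representation of the Galois group of `K` is pure of weight
`w`: this is the structure `PurePolarized` below (it is the one of the file `OneFrobenius`).

Let `v` be a place of `K`, not above `ℓ`, good or bad.  A subgroup of finite index of the inertia
group, which is normal in the decomposition group, acts by unipotent maps on `V`, through the tame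
quotient (Grothendieck); for a generator `g` of its image and an element `σ` of the decomposition group
which acts as `x ↦ x ^ q` on the residue field one has `σ g = g ^ q σ` on `V` and the factor of `σ⁻¹`
is `q ^ w`.  Let `m j` be the number of Jordan blocks of `g` of size `j`.  `LocalMonodromy` is this
local structure together with one of the following two conditions: (1) the weight-monodromy
conjecture, in the form that an eigenvector of `σ⁻¹` that is killed by `(g - 1) ^ (k + 1)` has an
integral weight of at most `w + k` (known for `w ≤ 2`, for abelian varieties, for complete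
intersections in toric varieties and for good reduction); or (2) the Jordan blocks of `g` have
pairwise different sizes.

**Theorem.** Suppose that for every `d > 0` with `2 d ≤ dim V` and with `w d [K : ℚ]` even there is
* a rational prime `p` which splits completely in `K` into primes of good reduction such that their
  Frobenius polynomials have no isotropic relation of size `d` (as in `OneFrobenius`), or
* a rational prime `p`, with arbitrary ramification in `K` and arbitrary reduction, such that
  `LocalMonodromy` holds at all the places above `p`, and such that at one of these places `d` is not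
  of the form `∑ j, j * b j` with `2 * b j ≤ m j` for all `j`.

Then `V` is semisimple; the orthogonal complement of every stable subspace is a stable complement.

If the Jordan blocks of `g` have pairwise different sizes at one place, then `2 * b j ≤ m j` implies
`b j = 0`, so the second condition is satisfied for all `d`. So for varieties over the rational
numbers **one** prime of bad reduction with Jordan blocks of pairwise different sizes implies that the
cohomology is semisimple, for all primes `ℓ` except the given one: nothing is assumed on the Hodge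
numbers, on irreducibility or on the weight-monodromy conjecture, and one block (maximally unipotent
monodromy) is a special case. No Frobenius polynomial has to be computed.

The proof: let `W` be a stable isotropic subspace of dimension `d`. Up to characters of finite order
the transfer to `ℚ` of the determinant of `W` is the square root of the `d`-th power of the transfer
of the similitude character (theorem of Kronecker and Weber and `ℓ`-adic six exponentials theorem, as
in `OneFrobenius`). At a bad place the weight of the determinant of `W` is at most `w d`, by the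
Jacobson-Morozov filtration of `W` and of its orthogonal complement; in the case of equality the
monodromy filtration of `V` restricts to the one of `W`, and `V` has at least twice as many blocks of
every size as `W`. If the blocks have different sizes, then the form and the relation between
Frobenius and monodromy determine the weights.
-/

set_option autoImplicit false

namespace Pool.Agent.Results.MP_b4801b_ag.SemisimpleBadPrimes

open NumberField IsDedekindDomain Polynomial TensorProduct

/-- the absolute Galois group, with the profinite (Krull) topology -/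
abbrev G (K : Type) [Field K] : Type := Gal(AlgebraicClosure K/K)

/-- `σ` acts as `x ↦ x ^ q` modulo a maximal ideal `Q` above `v` of the ring of all algebraic
integers: it is an element of the decomposition group at `Q` which acts on the residue field as a
Frobenius element (for `q = N(v)`) or a power of it (for `q > 1`) -/
def IsFrobeniusPower {K : Type} [Field K] [NumberField K] (v : HeightOneSpectrum (𝓞 K)) (q : ℕ)
    (σ : G K) : Prop :=
  ∃ Q : Ideal (𝓞 (AlgebraicClosure K)), Q.IsMaximal ∧
    Q.comap (algebraMap (𝓞 K) (𝓞 (AlgebraicClosure K))) = v.asIdeal ∧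
    ∀ x : 𝓞 (AlgebraicClosure K), σ • x - x ^ q ∈ Q

/-- A representation `ρ` of a group `Γ` on a vector space `V` over the `ℓ`-adic numbers, together
with a homomorphism `θ` from the absolute Galois group of the number field `K` to `Γ`, which is
* continuous on the Galois group of `K`,
* polarized: `Γ` acts by similitudes, with factor `χ`, of a nondegenerate symmetric or alternating
  form `B`,
* pure of weight `w`: outside the finite set `S` of primes of `K` the inverse of a Frobenius element
  has a characteristic polynomial `P v` with integral coefficients, whose complex roots have absolute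
  value `N(v) ^ (w / 2)`, and similitude factor `N(v) ^ w`. -/
structure PurePolarized (K : Type) [Field K] [NumberField K] (ℓ w : ℕ) [Fact ℓ.Prime]
    (Γ V : Type) [Group Γ] [AddCommGroup V] [Module ℚ_[ℓ] V] [FiniteDimensional ℚ_[ℓ] V] where
  θ : G K →* Γ
  ρ : Γ →* (V →ₗ[ℚ_[ℓ]] V)
  continuous : ∀ (φ : V →ₗ[ℚ_[ℓ]] ℚ_[ℓ]) (x : V), Continuous fun g => φ (ρ (θ g) x)
  B : LinearMap.BilinForm ℚ_[ℓ] V
  nondegenerate : B.Nondegenerate
  symm_or_alt : B.IsSymm ∨ B.IsAlt
  χ : Γ → ℚ_[ℓ]
  similitude : ∀ (g : Γ) (x y : V), B (ρ g x) (ρ g y) = χ g * B x y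
  S : Set (HeightOneSpectrum (𝓞 K))
  finite : S.Finite
  P : HeightOneSpectrum (𝓞 K) → ℤ[X]
  monic : ∀ v ∉ S, (P v).Monic
  weight : ∀ v ∉ S, ∀ z : ℂ, aeval z (P v) = 0 → ‖z‖ ^ 2 = (Ideal.absNorm v.asIdeal : ℝ) ^ w
  charpoly : ∀ v ∉ S, ∀ σ : G K, IsFrobeniusPower v (Ideal.absNorm v.asIdeal) σ →
    (ρ (θ σ⁻¹)).charpoly = (P v).map (algebraMap ℤ ℚ_[ℓ])
  factor : ∀ v ∉ S, ∀ σ : G K, IsFrobeniusPower v (Ideal.absNorm v.asIdeal) σ →
    χ (θ σ⁻¹) = (Ideal.absNorm v.asIdeal : ℚ_[ℓ]) ^ w

/-- An isotropic relation of size `d`, rational over `F`, between the roots in `Ω` of the polynomials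
`P i`: monic polynomials `Q i` of degree `d` over `F` such that the roots `z` of `Q i` together with
the numbers `s / z` are (with multiplicities) among the roots of `P i`, and such that the product of
all the roots of all the `Q i` is a square root of `s ^ (d * m)` times a root of unity. -/
def IsotropicRelation (F Ω : Type) [Field F] [Field Ω] [Algebra F Ω] {m : ℕ} (P : Fin m → ℤ[X])
    (s d : ℕ) : Prop :=
  ∃ (Q : Fin m → F[X]) (n : ℕ), 0 < n ∧
    (∀ i, (Q i).Monic ∧ (Q i).natDegree = d ∧
      (Q i).aroots Ω + ((Q i).aroots Ω).map (fun z => (s : Ω) / z) ≤ (P i).aroots Ω) ∧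
    (∏ i, ((Q i).aroots Ω).prod) ^ (2 * n) = (s : Ω) ^ (d * m * n)

section

variable {K : Type} [Field K] [NumberField K] {ℓ w : ℕ} [Fact ℓ.Prime]
  {Γ V : Type} [Group Γ] [AddCommGroup V] [Module ℚ_[ℓ] V] [FiniteDimensional ℚ_[ℓ] V]

/-- a rational prime `p` that splits completely in `K` into primes outside `S`, without isotropic
relation of size `d` between the Frobenius polynomials over the complex numbers, or without one that
is rational over the field of `ℓ`-adic numbers -/
def GoodPrime (A : PurePolarized K ℓ w Γ V) (d : ℕ) : Prop :=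
  ∃ (p : ℕ) (v : Fin (Module.finrank ℚ K) → HeightOneSpectrum (𝓞 K)), p.Prime ∧
    Function.Injective v ∧ (∀ i, (p : 𝓞 K) ∈ (v i).asIdeal ∧ v i ∉ A.S) ∧
    ¬ (IsotropicRelation ℂ ℂ (fun i => A.P (v i)) (p ^ w) d ∧
      IsotropicRelation ℚ_[ℓ] (AlgebraicClosure ℚ_[ℓ]) (fun i => A.P (v i)) (p ^ w) d)

/-- the number of Jordan blocks of size `j` of a unipotent map `g` -/
noncomputable def jordanBlocks (g : V →ₗ[ℚ_[ℓ]] V) (j : ℕ) : ℕ :=
  Module.finrank ℚ_[ℓ] (LinearMap.range ((g - 1) ^ (j - 1))) +
    Module.finrank ℚ_[ℓ] (LinearMap.range ((g - 1) ^ (j + 1))) -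
    2 * Module.finrank ℚ_[ℓ] (LinearMap.range ((g - 1) ^ j))

/-- The weight-monodromy condition: if `x ≠ 0` is an eigenvector of `Φ` with eigenvalue `α` and
`(g - 1) ^ (k + 1) x = 0`, then `|ι α| ^ 2 = q ^ n` for an integer `n ≤ w + k`. -/
def PureMonodromy (ι : AlgebraicClosure ℚ_[ℓ] →+* ℂ) (q w : ℕ) (Φ g : V →ₗ[ℚ_[ℓ]] V) : Prop :=
  ∀ (α : AlgebraicClosure ℚ_[ℓ]) (x : AlgebraicClosure ℚ_[ℓ] ⊗[ℚ_[ℓ]] V) (k : ℕ), x ≠ 0 →
    Φ.baseChange (AlgebraicClosure ℚ_[ℓ]) x = α • x →
    ((g - 1).baseChange (AlgebraicClosure ℚ_[ℓ]) ^ (k + 1)) x = 0 →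
    ∃ n : ℤ, n ≤ (w : ℤ) + k ∧ ‖ι α‖ ^ 2 = (q : ℝ) ^ n

/-- For every power `σ` of a Frobenius element at a place above `v` there is a unipotent `g` with
`σ g = g ^ q σ` on `V`, with `m j` Jordan blocks of size `j`; the factor of `σ⁻¹` is `q ^ w`; and the
weight-monodromy condition is satisfied or the Jordan blocks have pairwise different sizes.  (For a
place of good reduction one can take `g = 1`, `m 1 = dim V` and `m j = 0` for `j > 1`.) -/
def LocalMonodromy (A : PurePolarized K ℓ w Γ V) (ι : AlgebraicClosure ℚ_[ℓ] →+* ℂ)
    (v : HeightOneSpectrum (𝓞 K)) (m : ℕ → ℕ) : Prop :=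
  ∀ (q : ℕ) (σ : G K), 1 < q → IsFrobeniusPower v q σ → ∃ g : Γ, IsNilpotent (A.ρ g - 1) ∧
    A.ρ (A.θ σ) * A.ρ g = A.ρ g ^ q * A.ρ (A.θ σ) ∧ A.χ (A.θ σ⁻¹) = (q : ℚ_[ℓ]) ^ w ∧
    (∀ j, 0 < j → jordanBlocks (A.ρ g) j = m j) ∧
    (PureMonodromy ι q w (A.ρ (A.θ σ⁻¹)) (A.ρ g) ∨ ∀ j, 0 < j → m j ≤ 1)

/-- `d` is the sum of the sizes of a family of blocks with at most one half of the `m j` blocks of
size `j`, for all `j` -/
def HalfBlocks (m : ℕ → ℕ) (n d : ℕ) : Prop :=
  ∃ b : ℕ → ℕ, (∀ j, 0 < j → 2 * b j ≤ m j) ∧ ∑ j ∈ Finset.range (n + 1), j * b j = d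

/-- a rational prime `p` with `LocalMonodromy` at all the places of `K` above `p`, such that at one
of these places `d` is not the size of one half of the blocks -/
def BadPrime (A : PurePolarized K ℓ w Γ V) (ι : AlgebraicClosure ℚ_[ℓ] →+* ℂ) (d : ℕ) : Prop :=
  ∃ p : ℕ, p.Prime ∧ ∃ m : HeightOneSpectrum (𝓞 K) → ℕ → ℕ,
    (∀ v, (p : 𝓞 K) ∈ v.asIdeal → LocalMonodromy A ι v (m v)) ∧
    ∃ v, (p : 𝓞 K) ∈ v.asIdeal ∧ ¬ HalfBlocks (m v) (Module.finrank ℚ_[ℓ] V) d

end

/-- **Semisimplicity from good and bad primes.** -/
theorem result (K : Type) [Field K] [NumberField K] (ℓ w : ℕ) [Fact ℓ.Prime] (hw : 0 < w)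
    (Γ V : Type) [Group Γ] [AddCommGroup V] [Module ℚ_[ℓ] V] [FiniteDimensional ℚ_[ℓ] V]
    (A : PurePolarized K ℓ w Γ V) (ι : AlgebraicClosure ℚ_[ℓ] →+* ℂ)
    (h : ∀ d : ℕ, 0 < d → 2 * d ≤ Module.finrank ℚ_[ℓ] V → Even (w * d * Module.finrank ℚ K) →
      GoodPrime A d ∨ BadPrime A ι d)
    (U : Submodule ℚ_[ℓ] V) (hU : ∀ g : Γ, ∀ x ∈ U, A.ρ g x ∈ U) :
    IsCompl U (A.B.orthogonal U) ∧ ∀ g : Γ, ∀ x ∈ A.B.orthogonal U, A.ρ g x ∈ A.B.orthogonal U := by
  refine Pool.Agent.Y126.BP.semisimple_bad A.θ A.ρ A.continuous A.B A.nondegenerate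
    (A.symm_or_alt.elim LinearMap.BilinForm.IsSymm.isRefl
      LinearMap.BilinForm.IsAlt.isRefl) A.χ A.similitude hw A.finite
    A.P (fun v hv => ⟨A.monic v hv, A.weight v hv, fun σ hσ => ⟨A.charpoly v hv σ hσ,
      A.factor v hv σ hσ⟩⟩) ι (fun d h1 h2 h3 => ?_) U hU
  rcases h d h1 h2 h3 with h4 | ⟨p, hp, m, hm, v, hv, hb⟩
  · exact Or.inl h4
  · refine Or.inr ⟨p, hp, m, fun v hv => Pool.Agent.Y126.BP.locAt_of A.nondegenerate A.similitude
      fun q σ hq hσ => ?_, v, hv, ?_⟩
    · obtain ⟨g, hg, hrel, hfac, hj, hor⟩ := hm v hv q σ hq hσ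
      refine ⟨g, hg, hrel, hfac, fun j => ?_, hor.imp (fun h5 => h5) fun h5 j => h5 _ j.succ_pos⟩
      have h6 := hj (j + 1) j.succ_pos
      rw [jordanBlocks, Nat.add_sub_cancel] at h6
      change _ + Module.finrank ℚ_[ℓ] (LinearMap.range ((A.ρ g - 1) ^ (j + 1 + 1))) ≤ _
      omega
    · rintro ⟨b, hb1, hb2⟩
      refine hb ⟨b, fun j hj => ?_, hb2⟩
      obtain ⟨i, rfl⟩ := Nat.exists_eq_succ_of_ne_zero hj.ne'
      exact hb1 i

end Pool.Agent.Results.MP_b4801b_ag.SemisimpleBadPrimes
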