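import Pool.Agent.Y142.SS.Fin
import Pool.Agent.Y405.ZO.Frob
import Pool.Agent.Y484.ZI.IntRes
import Pool.Agent.Y726.ZI.Cheb
import Pool.Agent.Y681.ZI.Dens
import Pool.Agent.Y537.ZI.Multi
import Pool.Agent.Y255.SS.LF
import Pool.Agent.Y297.SS.CF
import Pool.Agent.Y708.SS.Loc
import Pool.Agent.Y492.SS.Subi
import Pool.Agent.Y936.SS.Logr
import Pool.Agent.Y518.SS.Krs
import Pool.Agent.Y737.SS.Chara
import Pool.Agent.Y312.SS.Ssv
import Pool.Agent.Y288.SS.Conj

/-!
# Semisimplicity of the Galois action on `ℓ`-adic cohomology at 100 percent of the primes `ℓ`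

Let `X` be a smooth projective variety over a finitely generated field `k` of characteristic zero and
let `V_ℓ`, for all primes `ℓ`, be the `i`-th `ℓ`-adic cohomology of `X` or a part of it which is cut out
by algebraic correspondences, for example the primitive part or the orthogonal complement of the
algebraic classes. `V_ℓ` carries a nondegenerate symmetric or alternating form for which the Galois
group acts by similitudes (Poincaré duality and hard Lefschetz). The representation comes from a
profinite group `Γ` (the fundamental group of a model of `X`, or the Galois group of `k`); if `k` is not a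
number field, a closed point of the generic fibre of the model gives a homomorphism `s` from the Galois
group of a number field `K` to `Γ`. At the places `v` of good reduction the characteristic polynomial
`P_v` of the geometric Frobenius element is a polynomial with rational coefficients which does not
depend on `ℓ`, and its complex roots have absolute value `q_v ^ (1/2)`, where `q_v` is the multiplier
(Deligne). The conjecture of Grothendieck and Serre says that all `V_ℓ` are semisimple.

**Theorem.** (A) Suppose that there are finitely many places `u_0, ..., u_m` of good reduction such that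
the polynomials `P_{u_i}` have simple roots, no quotient of two different roots is a root of unity, and
the splitting fields of these polynomials (in the algebraic closure of `ℚ`) have intersection `ℚ`. Then
`V_ℓ` is semisimple for all `ℓ` outside of a set of natural density zero, and also its restriction to
every open subgroup of `Γ` is (so that the Zariski closure of the image is a reductive group).

(B) More generally let `F` be the intersection of the splitting fields (this is a totally real field or
a CM field). Then `V_ℓ` is semisimple for all prime numbers `ℓ` whose Frobenius elements act on `F` as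
the complex conjugation, apart from a set of natural density zero.

So the conjecture of Grothendieck and Serre holds for 100 percent of the primes `ℓ` as soon as finitely
many Frobenius polynomials have the stated properties. There is no condition on the monodromy group (it
can be any reductive group whose weights in `V` have multiplicity one, connected or not, and `V_ℓ` may be
reducible), on the Hodge numbers or on the local behaviour at `ℓ`, and no automorphy is used.

Idea of the proof. If every factor over `ℚ_ℓ` of one polynomial `P_v` as above is invariant under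
`x ↦ q_v / x` then no stable subspace meets its orthogonal complement, so the latter is
a stable complement. For this it is enough that every set of roots of `P_v` which is stable under the
Frobenius element at `ℓ` is stable under `x ↦ q_v / x`, for example if the Frobenius element at `ℓ` acts
on the roots as a complex conjugation. One place `v` gives in this way a positive proportion of the
primes. For the theorem one needs many places `v` for which these conditions are sufficiently
independent. Let `M` be the field generated by the splitting fields for the places which have been used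
already. By Chebotarev's theorem there are auxiliary prime numbers `p` with a prescribed Frobenius
element on `M` and on the splitting field of `P_{u_i}`. The logarithm of a Frobenius element at `u_i` is
a tangent vector of the `p`-adic image, so there are places `v` whose Frobenius elements are `p`-adically
close to `1` in this direction, for all auxiliary primes `p` at the same time, and by Krasner's lemma the
Galois group of `ℚ_p` acts on the roots of `P_v` as on those of `P_{u_i}`. If the prescribed element is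
trivial on the roots of `P_{u_i}` then the decomposition group at `p` is trivial on the roots of
`P_v`, but the Frobenius element on `M` is an arbitrary element which is trivial on these roots. Such
elements (for all `i`) generate the group of all automorphisms of `M` over `M ∩ F`, so the conditions at
the new place `v` are independent of those at the old places over `F`, and Chebotarev's theorem gives
density zero for the exceptional set.
-/

set_option autoImplicit false

namespace Pool.Agent.Results.MP_b4801b_ag.SemisimpleDensityOne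

open Matrix Polynomial Filter Topology NumberField IsDedekindDomain

/-- the absolute Galois group of `K`, with its profinite (Krull) topology -/
abbrev AbsoluteGaloisGroup (K : Type) [Field K] : Type := Gal(AlgebraicClosure K/K)

/-- `σ` is an (arithmetic) Frobenius element at the prime `v` of the number field `K`: for some prime
`Q` of the algebraic closure above `v` it acts on the residue field as `x ↦ x ^ N(v)` -/
def IsFrobenius {K : Type} [Field K] [NumberField K] (v : HeightOneSpectrum (𝓞 K))
    (σ : AbsoluteGaloisGroup K) : Prop :=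
  ∃ Q : Ideal (𝓞 (AlgebraicClosure K)), Q.IsMaximal ∧
    Q.comap (algebraMap (𝓞 K) (𝓞 (AlgebraicClosure K))) = v.asIdeal ∧
    ∀ x : 𝓞 (AlgebraicClosure K), σ • x - x ^ Ideal.absNorm v.asIdeal ∈ Q

/-- `σ` is a Frobenius element at the prime number `ℓ` in the absolute Galois group of `ℚ` -/
def IsFrobeniusAt (ℓ : ℕ) (σ : AbsoluteGaloisGroup ℚ) : Prop :=
  ∃ Q : Ideal (𝓞 (AlgebraicClosure ℚ)), Q.IsMaximal ∧ (ℓ : 𝓞 (AlgebraicClosure ℚ)) ∈ Q ∧
    ∀ x : 𝓞 (AlgebraicClosure ℚ), σ • x - x ^ ℓ ∈ Q

/-- `ρ` is a continuous representation of `Γ` on `ℚ_ℓ ^ N` by similitudes of the nondegenerate symmetric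
or alternating form with the matrix `J`; for all `v ∉ S` which are prime to `ℓ` the characteristic
polynomial of (the image under `s` of) the geometric Frobenius elements `σ⁻¹` (`σ` arithmetic) at `v` is
`P v`, and their multiplier is `q v` -/
def IsPolarizedSystem (K : Type) [Field K] [NumberField K] {Γ : Type} [Group Γ] [TopologicalSpace Γ]
    (s : AbsoluteGaloisGroup K →* Γ) (N ℓ : ℕ) [Fact ℓ.Prime]
    (ρ : Γ →* Matrix (Fin N) (Fin N) ℚ_[ℓ]) (J : Matrix (Fin N) (Fin N) ℚ_[ℓ])
    (S : Set (HeightOneSpectrum (𝓞 K))) (P : HeightOneSpectrum (𝓞 K) → ℚ[X])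
    (q : HeightOneSpectrum (𝓞 K) → ℚ) : Prop :=
  Continuous ρ ∧ (Jᵀ = J ∨ Jᵀ = -J) ∧ J.det ≠ 0 ∧
  (∀ g, ∃ c : ℚ_[ℓ], (ρ g)ᵀ * J * ρ g = c • J) ∧
  ∀ v ∉ S, (ℓ : 𝓞 K) ∉ v.asIdeal → ∀ σ : AbsoluteGaloisGroup K, IsFrobenius v σ →
    (ρ (s σ⁻¹)).charpoly = (P v).map (algebraMap ℚ ℚ_[ℓ]) ∧
      (ρ (s σ⁻¹))ᵀ * J * ρ (s σ⁻¹) = (q v : ℚ_[ℓ]) • J

/-- `ρ` is semisimple, and so is its restriction to every open subgroup `U` of `Γ`: every subspace
stable under `U` has a complement stable under `U` -/
def IsSemisimpleOverOpen {Γ : Type} [Group Γ] [TopologicalSpace Γ] {N : ℕ} (ℓ : ℕ) [Fact ℓ.Prime]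
    (ρ : Γ →* Matrix (Fin N) (Fin N) ℚ_[ℓ]) : Prop :=
  ∀ (U : Subgroup Γ) (W : Submodule ℚ_[ℓ] (Fin N → ℚ_[ℓ])), IsOpen (U : Set Γ) →
    (∀ σ ∈ U, ∀ w ∈ W, ρ σ *ᵥ w ∈ W) →
    ∃ W' : Submodule ℚ_[ℓ] (Fin N → ℚ_[ℓ]), (∀ σ ∈ U, ∀ w ∈ W', ρ σ *ᵥ w ∈ W') ∧ IsCompl W W'

/-- the set `A` of prime numbers has natural density zero -/
def HasDensityZero (A : Set ℕ) : Prop :=
  Tendsto (fun n : ℕ => (Nat.card {ℓ : ℕ // ℓ ≤ n ∧ ℓ ∈ A} : ℝ) / (Nat.primeCounting n : ℝ))
    atTop (𝓝 0)

/-- the splitting field of `Q` in the algebraic closure of `ℚ` -/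
noncomputable def splittingField (Q : ℚ[X]) : Set (AlgebraicClosure ℚ) :=
  (IntermediateField.adjoin ℚ {x : AlgebraicClosure ℚ | aeval x Q = 0} :
    IntermediateField ℚ (AlgebraicClosure ℚ))

/-- **Semisimplicity at 100 percent of the primes `ℓ`.** -/
theorem result (K : Type) [Field K] [NumberField K] (Γ : Type) [Group Γ] [TopologicalSpace Γ]
    [IsTopologicalGroup Γ] [CompactSpace Γ] (s : AbsoluteGaloisGroup K →* Γ) (hs : Continuous s)
    (N : ℕ) (hN : 0 < N) (S : Set (HeightOneSpectrum (𝓞 K))) (hS : S.Finite)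
    (P : HeightOneSpectrum (𝓞 K) → ℚ[X]) (q : HeightOneSpectrum (𝓞 K) → ℚ)
    (ρ : ∀ (ℓ : ℕ) [Fact ℓ.Prime], Γ →* Matrix (Fin N) (Fin N) ℚ_[ℓ])
    (J : ∀ (ℓ : ℕ) [Fact ℓ.Prime], Matrix (Fin N) (Fin N) ℚ_[ℓ])
    (hρ : ∀ (ℓ : ℕ) [Fact ℓ.Prime], IsPolarizedSystem K s N ℓ (ρ ℓ) (J ℓ) S P q)
    (hpure : ∀ v ∉ S, ∀ z : ℂ, aeval z (P v) = 0 → ‖z‖ ^ 2 = (q v : ℝ))
    (m : ℕ) (u : Fin (m + 1) → HeightOneSpectrum (𝓞 K))
    (hu : ∀ i, u i ∉ S ∧ (P (u i)).Separable ∧ ∀ n : ℕ, 0 < n → ∀ x y : ℂ,
      aeval x (P (u i)) = 0 → aeval y (P (u i)) = 0 → x ^ n = y ^ n → x = y) :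
    -- (A)
    ((∀ x, (∀ i, x ∈ splittingField (P (u i))) → ∃ r : ℚ, x = r) →
      HasDensityZero {ℓ | ∃ _ : Fact ℓ.Prime, ¬ IsSemisimpleOverOpen ℓ (ρ ℓ)}) ∧
    -- (B)
    HasDensityZero {ℓ | ∃ _ : Fact ℓ.Prime,
      (∀ σ, IsFrobeniusAt ℓ σ → ∀ κ : AlgebraicClosure ℚ →+* ℂ,
        ∀ x, (∀ i, x ∈ splittingField (P (u i))) → κ (σ x) = starRingEnd ℂ (κ x)) ∧
      ¬ IsSemisimpleOverOpen ℓ (ρ ℓ)} := by
  -- the tasks
  have hFROB : Y142.ZO.S_FROB := Y405.ZO.t
  have hINT : Y142.ZI.S_INT := Y484.ZI.t1
  have hCHEB : Y142.ZI.S_CHEB := Y726.ZI.t1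
  have hDENS2 : Y142.ZI.S_DENS2 := Y681.ZI.t hCHEB
  have hMULTI : Y142.ZI.S_MULTI := Y537.ZI.t
  have hLF : Y142.SS.S_LF := Y255.SS.t
  have hCF : Y142.SS.S_CF := Y297.SS.t hLF
  have hLOC : Y142.SS.S_LOC := Y708.SS.Loc.t hCF
  have hSUBI : Y142.SS.S_SUBI := Y492.SS.Subi.t hCF
  have hLOGR : Y142.SS.S_LOGR := Y936.SS.t
  have hKRS : Y142.SS.S_KRS := Y518.SS.t
  have hCHARA : Y142.SS.S_CHARA := Y737.SS.Chara.t
  have hSSV : Y142.SS.S_SSV := Y312.SS.t
  have hCONJ : Y142.SS.S_CONJ := Y288.SS.t
  have hB := Y142.SS.finalSS hLOC hLOGR hKRS hCHARA hMULTI hFROB hINT hSUBI hSSV hDENS2 hCONJ hN hS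
    s hs ρ J hρ hpure u hu
  have hsame : ∀ (x : AlgebraicClosure ℚ) (i : Fin (m + 1)), P (u i) ≠ 0 →
      x ∈ Y142.ZI.Lf (P (u i)) → x ∈ splittingField (P (u i)) := by
    intro x i hi hx
    have h2 : (P (u i)).rootSet (AlgebraicClosure ℚ) =
        {x : AlgebraicClosure ℚ | aeval x (P (u i)) = 0} := by
      ext y
      exact mem_rootSet_of_ne hi
    unfold Y142.ZI.Lf at hx
    rw [h2] at hx
    exact hx
  have hB' : HasDensityZero {ℓ | ∃ _ : Fact ℓ.Prime,
      (∀ σ, IsFrobeniusAt ℓ σ → ∀ κ : AlgebraicClosure ℚ →+* ℂ,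
        ∀ x, (∀ i, x ∈ splittingField (P (u i))) → κ (σ x) = starRingEnd ℂ (κ x)) ∧
      ¬ IsSemisimpleOverOpen ℓ (ρ ℓ)} := by
    refine Y142.ZI.DensityZero.mono hB ?_
    rintro ℓ ⟨hp, hσ, hno⟩
    exact ⟨hp, fun σ hσ' κ x hx => hσ σ hσ' κ x fun i => hsame x i (hu i).2.1.ne_zero (hx i), hno⟩
  refine ⟨fun hF => ?_, hB'⟩
  refine Y142.ZI.DensityZero.mono hB' ?_
  rintro ℓ ⟨hp, hno⟩
  refine ⟨hp, fun σ _ κ x hx => ?_, hno⟩
  obtain ⟨r, rfl⟩ := hF x hx
  rw [map_ratCast, map_ratCast, map_ratCast]

end Pool.Agent.Results.MP_b4801b_ag.SemisimpleDensityOne
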